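import Pool.Agent.H.MP_de432b_gt.Main

namespace Pool.Agent.Results.MP_3020f5_gt.Conc
open Pool.Agent.H.MP_3020f5_gt Pool.Agent.H.MP_de432b_gt

theorem result :
    ContractibleSpace (Quot fun a b : {a : XC // a ≠ clsC pt} =>
      ∃ (A : MM) (c : ℝ) (hc : 0 < c), a.1 = clsC A ∧ b.1 = clsC (scale c hc A)) :=
  quotC

end Pool.Agent.Results.MP_3020f5_gt.Conc
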